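import Pool.Agent.Lib.helper5.Ray

namespace Pool.Agent.Results.MP_f80956_co.All

open Set Pool.Agent.Lib.helper5.Ray

/-- The regular hexagon with centre `0` and apothem `1 / 2`. -/
def Hex : Set E :=
  {p | |p 0| ≤ 1 / 2 ∧ |p 0 / 2 - √3 / 2 * p 1| ≤ 1 / 2 ∧ |p 0 / 2 + √3 / 2 * p 1| ≤ 1 / 2}

/-- The image of a proper continuous injective map from `[0, ∞)` or from `ℝ`. -/
def Curve (c : Set E) : Prop :=
  (∃ γ : Ici (0 : ℝ) → E, IsProperMap γ ∧ γ.Injective ∧ range γ = c) ∨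
    ∃ γ : ℝ → E, IsProperMap γ ∧ γ.Injective ∧ range γ = c

/-- `T` with a suitable marking is the prototile of an `n`-armed spiral. -/
def Spiral (T : Set E) (n : ℕ) : Prop :=
  ∃ (ι : Type) (σ : ι → E ≃ᵢ E) (M : Set (Set E)), Countable ι ∧ ⋃ i, σ i '' T = univ ∧
    (∀ i j, i ≠ j → Disjoint (interior (σ i '' T)) (interior (σ j '' T))) ∧
    M.Finite ∧ M.Nonempty ∧ (∀ A ∈ M, A ⊆ T ∧ Nonempty (A ≃ₜ Icc (0 : ℝ) 1)) ∧
    ∃ c : Fin n → Set E, (∀ j, Curve (c j)) ∧ (∀ i j, i ≠ j → Disjoint (c i) (c j)) ∧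
      ⋃ j, c j = ⋃ i, ⋃ A ∈ M, σ i '' A

noncomputable def X (p : E) : ℝ := p 0 - p 1 / √3

noncomputable def Y (p : E) : ℝ := 2 * p 1 / √3

noncomputable def mk (x y : ℝ) : E := !₂[x + y / 2, √3 / 2 * y]

theorem X_mk (x y : ℝ) : X (mk x y) = x := by
  simp [X, mk]
  field_simp
  ring

theorem Y_mk (x y : ℝ) : Y (mk x y) = y := by
  simp [Y, mk]
  field_simp

theorem XY {p q : E} (a : X p = X q) (b : Y p = Y q) : p = q := by
  have : p 1 = q 1 := by simpa [Y, div_left_inj'] using b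
  ext k
  fin_cases k
  · simpa [X, this] using a
  · exact this

theorem X_add (p q : E) : X (p + q) = X p + X q := by simp [X]; ring

theorem Y_add (p q : E) : Y (p + q) = Y p + Y q := by simp [Y]; ring

theorem s3 (t : ℝ) : √3 * t = 3 * (t / √3) := by
  field_simp
  rw [Real.sq_sqrt (by norm_num), mul_comm]

theorem dsq (p q : E) : dist p q = √((X p - X q) ^ 2 + (X p - X q) * (Y p - Y q) + (Y p - Y q) ^ 2) := by
  rw [EuclideanSpace.dist_eq, Fin.sum_univ_two]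
  have h : √3 ^ 2 = 3 := Real.sq_sqrt (by norm_num)
  congr 1
  simp only [Real.dist_eq, sq_abs, X, Y]
  field_simp
  ring_nf
  rw [h]
  ring

noncomputable def rot : E ≃ᵢ E :=
  IsometryEquiv.mk' (fun p => mk (-X p - Y p) (X p)) (fun p => mk (Y p) (-X p - Y p))
    (fun p => XY (by simp only [X_mk, Y_mk]; ring) (by simp [X_mk, Y_mk]))
    (Isometry.of_dist_eq fun p q => by
      simp only [dsq, X_mk, Y_mk]
      congr 1
      ring)

theorem X_rot (p : E) : X (rot p) = -X p - Y p := X_mk _ _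

theorem Y_rot (p : E) : Y (rot p) = X p := Y_mk _ _

theorem mem_Hex {p : E} : p ∈ Hex ↔ |X p - Y p| ≤ 1 ∧ |2 * X p + Y p| ≤ 1 ∧ |X p + 2 * Y p| ≤ 1 := by
  have := s3 (p 1)
  simp only [Hex, mem_ofPred_eq, X, Y, abs_le, mul_div_assoc]
  constructor <;> rintro ⟨⟨_, _⟩, ⟨_, _⟩, _, _⟩ <;> refine ⟨⟨?_, ?_⟩, ⟨?_, ?_⟩, ?_, ?_⟩ <;> linarith

noncomputable def σ (u : ℤ × ℤ) (k : Fin 3) : E ≃ᵢ E := IsometryEquiv.addLeft (mk u.1 u.2) * rot ^ k.1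

theorem σX (u k) (p : E) : X (σ u k p) = u.1 + ![X p, -X p - Y p, Y p] k := by
  fin_cases k <;> simp [σ, X_add, X_mk, X_rot, Y_rot, pow_two]

theorem σY (u k) (p : E) : Y (σ u k p) = u.2 + ![Y p, X p, -X p - Y p] k := by
  fin_cases k <;> simp [σ, Y_add, Y_mk, X_rot, Y_rot, pow_two]

theorem σH (u k) (p : E) : p ∈ σ u k '' Hex ↔ |X p - u.1 - (Y p - u.2)| ≤ 1 ∧
    |2 * (X p - u.1) + (Y p - u.2)| ≤ 1 ∧ |X p - u.1 + 2 * (Y p - u.2)| ≤ 1 := by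
  obtain ⟨p, rfl⟩ := (σ u k).surjective p
  rw [(σ u k).injective.mem_set_image, mem_Hex, σX, σY]
  fin_cases k <;> simp [abs_le] <;> constructor <;> rintro ⟨⟨_, _⟩, ⟨_, _⟩, _, _⟩ <;>
    refine ⟨⟨?_, ?_⟩, ⟨?_, ?_⟩, ?_, ?_⟩ <;> linarith

theorem cover (p : E) : ∃ u : ℤ × ℤ, |X p - u.1 - (Y p - u.2)| ≤ 1 ∧
    |2 * (X p - u.1) + (Y p - u.2)| ≤ 1 ∧ |X p - u.1 + 2 * (Y p - u.2)| ≤ 1 := by
  have := Int.floor_le (X p)
  have := Int.floor_le (Y p)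
  have := Int.lt_floor_add_one (X p)
  have := Int.lt_floor_add_one (Y p)
  generalize ⌊X p⌋ = a, ⌊Y p⌋ = b at *
  simp only [abs_le]
  rcases le_total (X p - a) (Y p - b) with h | h
  · rcases le_total (X p - a + 2 * (Y p - b)) 1 with h1 | h1
    · refine ⟨(a, b), ⟨?_, ?_⟩, ⟨?_, ?_⟩, ?_, ?_⟩ <;> linarith
    · rcases le_total (2 * (X p - a) + (Y p - b)) 2 with h2 | h2
      · refine ⟨(a, b + 1), ⟨?_, ?_⟩, ⟨?_, ?_⟩, ?_, ?_⟩ <;> push_cast <;> linarith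
      · refine ⟨(a + 1, b + 1), ⟨?_, ?_⟩, ⟨?_, ?_⟩, ?_, ?_⟩ <;> push_cast <;> linarith
  · rcases le_total (2 * (X p - a) + (Y p - b)) 1 with h1 | h1
    · refine ⟨(a, b), ⟨?_, ?_⟩, ⟨?_, ?_⟩, ?_, ?_⟩ <;> linarith
    · rcases le_total (X p - a + 2 * (Y p - b)) 2 with h2 | h2
      · refine ⟨(a + 1, b), ⟨?_, ?_⟩, ⟨?_, ?_⟩, ?_, ?_⟩ <;> push_cast <;> linarith
      · refine ⟨(a + 1, b + 1), ⟨?_, ?_⟩, ⟨?_, ?_⟩, ?_, ?_⟩ <;> push_cast <;> linarith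

theorem strict {A : Set E} {p : E} (h : p ∈ interior A) (a b c : ℝ) (ab : a ≠ 0)
    (hA : ∀ q ∈ A, |a * X q + b * Y q - c| ≤ 1) : |a * X p + b * Y p - c| < 1 := by
  let f : E →L[ℝ] ℝ := a • EuclideanSpace.proj 0 + ((2 * b - a) / √3) • EuclideanSpace.proj 1
  have e : ∀ q, f q = a * X q + b * Y q := fun q => by
    simp [f, X, Y]
    ring
  have o := f.isOpenMap_of_ne_zero fun z => ab (by simpa [z, X_mk, Y_mk] using (e (mk 1 0)).symm)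
  have : f p ∈ interior (Icc (c - 1) (c + 1)) := interior_mono (by
    rintro _ ⟨q, hq, rfl⟩
    have := abs_le.mp (hA q hq)
    rw [e]
    constructor <;> linarith) (o.image_interior_subset _ ⟨p, h, rfl⟩)
  rw [interior_Icc, e] at this
  rw [abs_lt]
  constructor <;> linarith [this.1, this.2]

theorem disj {u v k l} {p : E} (x : p ∈ interior (σ u k '' Hex)) (y : p ∈ interior (σ v l '' Hex)) :
    u = v := by
  have key : ∀ u k, p ∈ interior (σ u k '' Hex) → |1 * X p + -1 * Y p - (u.1 - u.2)| < 1 ∧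
      |2 * X p + 1 * Y p - (2 * u.1 + u.2)| < 1 ∧ |1 * X p + 2 * Y p - (u.1 + 2 * u.2)| < 1 :=
    fun u k h => ⟨strict h _ _ _ one_ne_zero fun q hq => by convert ((σH u k q).mp hq).1 using 2; ring,
      strict h _ _ _ two_ne_zero fun q hq => by convert ((σH u k q).mp hq).2.1 using 2; ring,
      strict h _ _ _ one_ne_zero fun q hq => by convert ((σH u k q).mp hq).2.2 using 2; ring⟩
  have lt : ∀ (t : ℝ) (a b : ℤ), |t - a| < 1 → |t - b| < 1 → a - b < 2 ∧ b - a < 2 := fun t a b x y => by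
    rw [abs_lt] at x y
    exact ⟨by exact_mod_cast (by linarith : (a : ℝ) - b < 2),
      by exact_mod_cast (by linarith : (b : ℝ) - a < 2)⟩
  have a := lt _ (u.1 - u.2) (v.1 - v.2) (by exact_mod_cast (key u k x).1) (by exact_mod_cast (key v l y).1)
  have b := lt _ (2 * u.1 + u.2) (2 * v.1 + v.2) (by exact_mod_cast (key u k x).2.1)
    (by exact_mod_cast (key v l y).2.1)
  have c := lt _ (u.1 + 2 * u.2) (v.1 + 2 * v.2) (by exact_mod_cast (key u k x).2.2)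
    (by exact_mod_cast (key v l y).2.2)
  exact Prod.ext (by omega) (by omega)

def nx (n : ℕ) (u : ℤ × ℤ) : ℤ × ℤ :=
  if 1 ≤ u.1 then
    if 1 ≤ u.2 then (u.1 - 1, u.2 + 1) else if 1 ≤ u.1 + u.2 then (u.1, u.2 + 1) else (u.1 + 1, u.2)
  else if 2 ≤ u.1 + u.2 then (u.1 - 1, u.2)
    else if u.1 ≤ -1 ∧ 2 - n < u.2 then (u.1, u.2 - 1) else (u.1 + 1, u.2 - 1)

noncomputable def pt (u : ℤ × ℤ) : E := pos (mk (-1 / 3) (-1 / 3)) (mk 1 0) (mk 0 1) u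

theorem pt_eq (u : ℤ × ℤ) : pt u = mk (u.1 - 1 / 3) (u.2 - 1 / 3) := by
  ext k
  fin_cases k <;> simp [pt, pos, mk] <;> ring

theorem spiral {n : ℕ} (hn : 0 < n) :
    ∃ c : Fin n → Set E, (∀ j, ∃ γ : Ici (0 : ℝ) → E, IsProperMap γ ∧ γ.Injective ∧ range γ = c j) ∧
      (∀ i j, i ≠ j → Disjoint (c i) (c j)) ∧ ⋃ j, c j = ⋃ w, segment ℝ (pt w) (pt (nx n w)) := by
  refine arms _ (fun s t h => ?_)
    (nx n) (fun u => ?_) (fun u v h => ?_) (fun j => (0, 1 - j)) (fun i j h => ?_) (fun j u h => ?_)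
    (fun w => ?_)
    (fun u => if 1 ≤ u.1 then if 1 ≤ u.2 then 6 * (u.1 + u.2 - 1) + 1
        else if 1 ≤ u.1 + u.2 then 6 * u.1 else -6 * u.2 + 5
      else if 2 ≤ u.1 + u.2 then 6 * (u.2 - 1) + 2
        else if u.1 ≤ -1 ∧ 2 - n < u.2 then -6 * u.1 + 3 else 6 * (1 - u.1 - u.2) + 4)
    (fun u => if 1 ≤ u.1 then if 1 ≤ u.2 then u.2 else if 1 ≤ u.1 + u.2 then u.1 + u.2 else u.1
      else if 2 ≤ u.1 + u.2 then -u.1
        else if u.1 ≤ -1 ∧ 2 - n < u.2 then 1 - u.1 - u.2 else 1 - u.2) (fun u => ?_) fun u => ?_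
  · have a : t = 0 := by simpa [mk] using congrArg (· 1) h
    exact ⟨by simpa [mk, a] using congrArg (· 0) h, a⟩
  · simp only [nx, Dir]
    split_ifs <;> simp [Prod.ext_iff]
  · simp only [nx] at h
    split_ifs at h <;> simp only [Prod.mk.injEq] at h <;> exact Prod.ext (by omega) (by omega)
  · simp only [Prod.mk.injEq] at h
    exact Fin.ext (by omega)
  · simp only [nx] at h
    split_ifs at h <;> simp only [Prod.mk.injEq] at h <;> omega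
  · obtain ⟨x, y⟩ := w
    by_cases q : x = 0 ∧ y ≤ 1 ∧ 1 - y < n
    · exact Or.inl ⟨⟨(1 - y).toNat, by omega⟩, Prod.ext (by simp [q.1]) (by simp; omega)⟩
    · right
      have : (1 ≤ x + 1 ∧ 1 ≤ y - 1) ∨ (1 ≤ x ∧ y - 1 ≤ 0 ∧ 1 ≤ x + (y - 1)) ∨
        (1 ≤ x - 1 ∧ x - 1 + y ≤ 0) ∨ (x + 1 ≤ 0 ∧ 2 ≤ x + 1 + y) ∨
        (x ≤ -1 ∧ x + (y + 1) ≤ 1 ∧ 2 - n < y + 1) ∨
        (x - 1 ≤ 0 ∧ x + y ≤ 1 ∧ ¬(x - 1 ≤ -1 ∧ 2 - n < y + 1)) := by omega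
      rcases this with h | h | h | h | h | h <;>
        [refine ⟨(x + 1, y - 1), ?_⟩; refine ⟨(x, y - 1), ?_⟩; refine ⟨(x - 1, y), ?_⟩;
          refine ⟨(x + 1, y), ?_⟩; refine ⟨(x, y + 1), ?_⟩; refine ⟨(x - 1, y + 1), ?_⟩] <;>
        simp only [nx] <;> split_ifs <;> simp <;> omega
  · constructor <;> split_ifs <;> omega
  · simp only [nx]
    split_ifs <;> simp only [true_and] at * <;> omega

def e0 (u : ℤ × ℤ) (k : Fin 3) : ℤ × ℤ := ![u, (u.1 + 1, u.2), (u.1, u.2 + 1)] k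

theorem σM (u k) : σ u k '' segment ℝ (pt (0, 0)) (pt (1, 0)) =
    segment ℝ (pt (e0 u k)) (pt (e0 u (k + 1))) := by
  have := image_segment ℝ (σ u k).toRealAffineIsometryEquiv.toAffineEquiv.toAffineMap
    (pt (0, 0)) (pt (1, 0))
  refine this.trans ?_
  congr 1 <;> refine XY ((σX _ _ _).trans ?_) ((σY _ _ _).trans ?_) <;> fin_cases k <;>
    simp [pt_eq, X_mk, Y_mk, e0] <;> ring

def Rl (n : ℕ) (u : ℤ × ℤ) (k : Fin 3) (w : ℤ × ℤ) : Prop :=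
  w = e0 u k ∧ nx n w = e0 u (k + 1) ∨ w = e0 u (k + 1) ∧ nx n w = e0 u k

theorem mark {n : ℕ} (hn : 0 < n) : ∃ (s : ℤ × ℤ → Fin 3) (m : ℤ × ℤ → ℤ × ℤ),
    (∀ u, Rl n u (s u) (m u)) ∧ m.Surjective := by
  refine (pick (Rl n) (fun u => ?_)
    (fun u => if 1 ≤ u.1 then if 1 ≤ u.2 then (u.1 - 1, u.2) else u
      else if 2 ≤ u.1 + u.2 then (u.1 - 1, u.2) else (u.1, u.2 - 1))
    (fun u => if 1 ≤ u.1 then if 1 ≤ u.2 then 1 else if 1 ≤ u.1 + u.2 then 2 else 0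
      else if 2 ≤ u.1 + u.2 then 0 else if u.1 ≤ -1 ∧ 2 - n < u.2 then 2 else 1)
    (fun u v h => ?_) fun u => ?_).imp fun s h => h.imp fun m h => ⟨h.1, fun w => ⟨_, (h.2 w).2⟩⟩
  · obtain ⟨x, y⟩ := u
    have : ∀ {p q : ℤ × ℤ} (s), e0 (x, y) s = p → e0 (x, y) (s + 1) = q →
        nx n p = q ∨ nx n q = p → ∃ s w, Rl n (x, y) s w := by
      rintro _ _ s rfl rfl (h | h)
      exacts [⟨s, _, Or.inl ⟨rfl, h⟩⟩, ⟨s, _, Or.inr ⟨rfl, h⟩⟩]
    have h : (1 ≤ x ∧ x + y ≤ 0 ∨ x ≤ -1 ∧ 1 ≤ x + y) ∨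
      (0 ≤ x ∧ 1 ≤ y ∨ x ≤ 0 ∧ x + y ≤ 0 ∧ ¬(x ≤ -1 ∧ 2 - n < y + 1)) ∨
      (1 ≤ x ∧ y ≤ 0 ∧ 1 ≤ x + y ∨ x ≤ -1 ∧ x + y ≤ 0 ∧ 2 - n < y + 1) := by omega
    rcases h with h | h | h <;>
      [refine this (p := (x, y)) (q := (x + 1, y)) 0 rfl rfl ?_;
        refine this (p := (x + 1, y)) (q := (x, y + 1)) 1 rfl rfl ?_;
        refine this (p := (x, y + 1)) (q := (x, y)) 2 rfl rfl ?_] <;>
      simp only [nx] <;> split_ifs <;> simp <;> omega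
  · simp only [] at h
    split_ifs at h <;> simp only [Prod.ext_iff] at h <;> exact Prod.ext (by omega) (by omega)
  · simp only [Rl, nx, e0]
    split_ifs <;> simp [Prod.ext_iff] at *

theorem result : {n : ℕ | 0 < n ∧ Spiral Hex n} = {n | 0 < n} := by
  refine Subset.antisymm (fun n h => h.1) fun n (hn : 0 < n) => ⟨hn, ?_⟩
  obtain ⟨c, h1, h2, h3⟩ := spiral hn
  obtain ⟨s, m, a, b⟩ := mark hn
  refine ⟨ℤ × ℤ, fun u => σ u (s u), {segment ℝ (pt (0, 0)) (pt (1, 0))}, inferInstance,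
    eq_univ_of_forall fun p => mem_iUnion.mpr ((cover p).imp fun u h => (σH _ _ _).mpr h),
    fun u v ne => disjoint_left.mpr fun p x y => ne (disj x y), finite_singleton _,
    singleton_nonempty _, ?_, c, fun j => Or.inl (h1 j), h2, ?_⟩
  · rintro _ rfl
    refine ⟨?_, arc fun h => by
      have := congrArg X h
      norm_num [pt_eq, X_mk] at this⟩
    rintro _ ⟨α, β, x, y, z, rfl⟩
    have : α • pt (0, 0) + β • pt (1, 0) = mk (β - 1 / 3) (-1 / 3) := by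
      obtain rfl : α = 1 - β := by linarith
      ext k
      fin_cases k <;> simp [pt_eq, mk] <;> ring
    rw [this, mem_Hex, X_mk, Y_mk]
    simp only [abs_le]
    refine ⟨⟨?_, ?_⟩, ⟨?_, ?_⟩, ?_, ?_⟩ <;> linarith
  · simp only [biUnion_singleton]
    rw [h3, ← b.iUnion_comp]
    refine iUnion_congr fun u => ?_
    rcases a u with ⟨a, b⟩ | ⟨a, b⟩
    · rw [σM, b, a]
    · rw [σM, b, a, segment_symm]

end Pool.Agent.Results.MP_f80956_co.All
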